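import Pool.Agent.H96.KacJ

set_option autoImplicit false
open MeasureTheory ProbabilityTheory Filter Topology
open scoped ENNReal NNReal

namespace Pool.Agent.H76.KAC

open Pool.Agent.H96.Kac

/-- the number of distinct real zeros is at most the number of roots -/
lemma ncard_le (n : ℕ) (ω : ℕ → ℝ) :
    {x : ℝ | ∑ k ∈ Finset.range (n + 1), ω k * x ^ k = 0}.ncard ≤ (pol n ω).roots.card := by
  classical
  by_cases h0 : pol n ω = 0
  · have : {x : ℝ | ∑ k ∈ Finset.range (n + 1), ω k * x ^ k = 0} = Set.univ := by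
      ext x
      simp only [Set.mem_ofPred_eq, Set.mem_univ, iff_true]
      have h := eval_pol n ω x
      rw [h0, Polynomial.eval_zero] at h
      exact h.symm
    rw [this, Set.Infinite.ncard Set.infinite_univ]
    exact Nat.zero_le _
  · have : {x : ℝ | ∑ k ∈ Finset.range (n + 1), ω k * x ^ k = 0} =
        ((pol n ω).roots.toFinset : Set ℝ) := by
      ext x
      simp only [Set.mem_ofPred_eq, Finset.mem_coe, Multiset.mem_toFinset, Polynomial.mem_roots h0,
        Polynomial.IsRoot.def]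
      rw [eval_pol]
      rfl
    rw [this, Set.ncard_coe_finset]
    exact Multiset.toFinset_card_le _

/-- number of distinct real zeros -/
noncomputable def NN (n : ℕ) (ω : ℕ → ℝ) : ℝ :=
  ({x : ℝ | ∑ k ∈ Finset.range (n + 1), ω k * x ^ k = 0}.ncard : ℝ)

lemma ee_val : ee = (1 - Real.exp (-(1/4))) / (20 * Real.pi) := rfl

lemma event {ω : ℕ → ℝ} (h2 : ∀ n : ℕ, ω ∉ DR (n+1)) (hmem : ω ∈ ⋂ m, CC m) :
    ∃ᶠ n : ℕ in atTop, NN n ω ≤ (2/Real.pi - ee) * Real.log n := by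
  rw [frequently_atTop]
  intro m
  rw [Set.mem_iInter] at hmem
  have h4 := hmem (m + 2)
  unfold CC at h4
  simp only [Set.mem_iUnion] at h4
  obtain ⟨n, hn, hB⟩ := h4
  refine ⟨n, by omega, ?_⟩
  have hlog : 0 < Real.log n := Real.log_pos (by exact_mod_cast (by omega : 1 < n))
  have h7 : ω ∉ DR n := by
    have := h2 (n-1)
    rwa [show n - 1 + 1 = n by omega] at this
  have h8 := card_roots_le n ω h7
  have h9 : ((pol n ω).roots.card : ℝ≥0∞) ≤
    ENNReal.ofReal ((2/Real.pi - ee) * Real.log n) := h8.trans hB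
  rw [← ENNReal.ofReal_natCast,
    ENNReal.ofReal_le_ofReal_iff (mul_pos cc_pos hlog).le] at h9
  refine le_trans ?_ h9
  unfold NN
  exact_mod_cast ncard_le n ω

lemma ae_DR : ∀ᵐ ω ∂P, ∀ n : ℕ, ω ∉ DR (n+1) := by
  rw [ae_all_iff]
  intro n
  exact measure_eq_zero_iff_ae_notMem.mp (P_DR (n+1) (by omega))

lemma meas_CC (m : ℕ) : MeasurableSet (CC m) :=
  MeasurableSet.iUnion fun n => MeasurableSet.iUnion fun _ => measurable_BB n

lemma map_eq {Ω : Type*} [MeasurableSpace Ω] (μ : Measure Ω) [IsProbabilityMeasure μ]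
    (a : ℕ → Ω → ℝ) (hm : ∀ k, Measurable (a k)) (hi : iIndepFun a μ)
    (hg : ∀ k, μ.map (a k) = gaussianReal 0 1) : μ.map (fun ω k => a k ω) = P := by
  have h := (iIndepFun_iff_map_fun_eq_infinitePi_map hm).1 hi
  rw [h]
  unfold P
  congr 1
  funext k
  exact hg k

theorem main (Ω : Type*) [MeasurableSpace Ω] (μ : Measure Ω) [IsProbabilityMeasure μ]
    (a : ℕ → Ω → ℝ) (hm : ∀ k, Measurable (a k)) (hi : iIndepFun a μ)
    (hg : ∀ k, μ.map (a k) = gaussianReal 0 1) :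
    0 < μ {ω | ∃ᶠ n : ℕ in atTop,
      ({x : ℝ | ∑ k ∈ Finset.range (n + 1), a k ω * x ^ k = 0}.ncard : ℝ) ≤
        (2 / Real.pi - (1 - Real.exp (-(1/4))) / (20 * Real.pi)) * Real.log n} := by
  have hP := map_eq μ a hm hi hg
  have hF : Measurable (fun (ω : Ω) (k : ℕ) => a k ω) := measurable_pi_lambda _ hm
  have hS : MeasurableSet (⋂ m, CC m) := MeasurableSet.iInter meas_CC
  have h1 : μ ((fun (ω : Ω) (k : ℕ) => a k ω) ⁻¹' (⋂ m, CC m)) ≠ 0 := by
    rw [← Measure.map_apply hF hS, hP]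
    exact CC_inter
  refine lt_of_lt_of_le (pos_iff_ne_zero.2 h1) ?_
  refine measure_mono_ae ?_
  have h2 : ∀ᵐ ω ∂μ, ∀ n : ℕ, (fun k => a k ω) ∉ DR (n+1) := by
    have := ae_DR
    rw [← hP] at this
    exact ae_of_ae_map hF.aemeasurable this
  filter_upwards [h2] with ω hω hmem
  exact event hω hmem

theorem main2 (Ω : Type*) [MeasurableSpace Ω] (μ : Measure Ω) [IsProbabilityMeasure μ]
    (a : ℕ → Ω → ℝ) (hm : ∀ k, Measurable (a k)) (hi : iIndepFun a μ)
    (hg : ∀ k, μ.map (a k) = gaussianReal 0 1) :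
    ¬ ∀ᵐ ω ∂μ, Tendsto (fun n : ℕ =>
      ({x : ℝ | ∑ k ∈ Finset.range (n + 1), a k ω * x ^ k = 0}.ncard : ℝ) / Real.log n)
      atTop (𝓝 (2 / Real.pi)) := by
  intro h
  have h1 := main Ω μ a hm hi hg
  have h2 : μ {ω | ∃ᶠ n : ℕ in atTop,
      ({x : ℝ | ∑ k ∈ Finset.range (n + 1), a k ω * x ^ k = 0}.ncard : ℝ) ≤
        (2 / Real.pi - (1 - Real.exp (-(1/4))) / (20 * Real.pi)) * Real.log n} = 0 := by
    rw [measure_eq_zero_iff_ae_notMem]
    filter_upwards [h] with ω hω hmem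
    have hee := ee_pos
    rw [ee_val] at hee
    have h3 : ∀ᶠ n : ℕ in atTop, 2/Real.pi - (1 - Real.exp (-(1/4))) / (20 * Real.pi) <
        ({x : ℝ | ∑ k ∈ Finset.range (n + 1), a k ω * x ^ k = 0}.ncard : ℝ) / Real.log n :=
      hω.eventually_const_lt (by linarith)
    obtain ⟨n, h5, h6, h7⟩ := (hmem.and_eventually (h3.and (eventually_ge_atTop 2))).exists
    have hlog : 0 < Real.log n := Real.log_pos (by exact_mod_cast h7)
    rw [lt_div_iff₀ hlog] at h6
    linarith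
  exact absurd h2 h1.ne'

end Pool.Agent.H76.KAC
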